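import Pool.Agent.Lib.MP_4a09cd_ag.Final

set_option autoImplicit false

namespace Pool.Agent.Results.MP_4a09cd_ag.SingLocusNotCoisotropic

open Pool.Agent.Lib.MP_4a09cd_ag

universe u

/-- Over every algebraically closed field `K` of characteristic zero there is an irreducible closed
coisotropic subvariety `S` of `Gr(1, ℙ⁶)` whose singular locus has an irreducible component `W`
which is not coisotropic. -/
theorem result (K : Type u) [Field K] [IsAlgClosed K] [CharZero K] :
    ∃ S W : Set (GrProj K 1 6),
      IsClosed S ∧ IsIrreducible S ∧ IsCoisotropic S ∧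
        IsComponent (singularLocus S) W ∧ IsClosed W ∧ ¬ IsCoisotropic W := by
  have h2 : (2 : K) ≠ 0 := two_ne_zero
  have : Infinite K := IsAlgClosed.instInfinite
  refine ⟨SS K, WW K, isClosed_SS, isIrreducible_SS, ?_, ?_, isClosed_closure, ?_⟩
  · exact (isCoisotropic_iff (SS K)).mpr (isCoisotropic_SS h2)
  · exact isComponent_WW h2
  · exact fun h => not_isCoisotropic_WW ((isCoisotropic_iff (WW K)).mp h)

end Pool.Agent.Results.MP_4a09cd_ag.SingLocusNotCoisotropic
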